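import Pool.Agent.helper41.RC.Tele

/-!
# MP_7b0956_an: closed subspaces of the spaces K for which C(K) has both norms

Let `X` be a nonempty compact Hausdorff space of weight at most `ℵ₁`.  Then `X` is scattered iff
it is homeomorphic to a closed subspace of a compact Hausdorff space `K` of weight at most `ℵ₁`
for which `C(K)` has both an equivalent polyhedral norm and an equivalent `C¹` norm.

For the proof, `X` is embedded in the telescope of the inverse system of the restrictions of `X`
to the initial segments of its coordinates.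
-/

set_option autoImplicit false

namespace Pool.Agent.Results.MP_7b0956_an.ClosedSubspaces

open Topology Pool.Agent.helper26.CK Pool.Agent.helper41.RC

theorem result (X : Type) [TopologicalSpace X] [CompactSpace X] [T2Space X] [Nonempty X]
    (hX : WeightLe X) :
    Scattered X ↔ ∃ (K : Type) (_ : TopologicalSpace K) (_ : CompactSpace K) (_ : T2Space K)
      (ι : X → K), IsClosedEmbedding ι ∧ WeightLe K ∧ HasPoly C(K, ℝ) ∧ HasC1 C(K, ℝ) := by
  constructor
  · intro h
    obtain ⟨K, i1, i2, i3, ι, h1, h2, h3, h4⟩ := exists_embedding h hX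
    have : Nonempty K := ⟨ι (Classical.arbitrary X)⟩
    exact ⟨K, i1, i2, i3, ι, h1, h3, h4.hasPoly_iff.2 h2, h4.hasC1_iff.2 h2⟩
  · rintro ⟨K, i1, i2, i3, ι, h1, -, h2, -⟩ A ⟨a, ha⟩
    have : Nonempty K := ⟨ι a⟩
    have hK : Scattered K := by
      by_contra hK
      exact not_hasPoly hK h2
    obtain ⟨_, ⟨b, hb, rfl⟩, U, hU, hUe⟩ := hK (ι '' A) ⟨ι a, a, ha, rfl⟩
    refine ⟨b, hb, ι ⁻¹' U, hU.preimage h1.continuous, ?_⟩
    ext y
    constructor
    · rintro ⟨h3, h4⟩
      have : ι y ∈ U ∩ ι '' A := ⟨h3, y, h4, rfl⟩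
      rw [hUe] at this
      exact h1.injective this
    · rintro rfl
      have : ι y ∈ U ∩ ι '' A := by rw [hUe]; rfl
      exact ⟨this.1, hb⟩

end Pool.Agent.Results.MP_7b0956_an.ClosedSubspaces
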