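import Pool.Agent.helper41.RC.Vald

/-!
# MP_7b0956_an: polyhedral and C¹ norms on C(K) and chains of retractions

A *chain of retractions* (`RetrChain`) of a compact space `L` is a family of retractions `r α` of
`L`, indexed by the ordinals, with `r α ∘ r β = r (min α β)`, continuous in `α` at limits, equal to
the identity from some point on, such that `r 0 (L)` is hereditarily Lindelöf and the set of new
points `r (α + 1) (L) \ r α (L)` is covered by countably many families of hereditarily Lindelöf
sets, each of them locally finite at the points outside of `r α (L)`.  `ChainImages K` means that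
`K` is the union of countably many continuous images of compact Hausdorff spaces with chains of
retractions.

Let `K` be such a space and let `Z` be any nonempty compact Hausdorff space.  Then `C(K × Z)` has
an equivalent polyhedral norm iff `K` is scattered and `C(Z)` has one, and the same for `C¹` norms.
In particular `C(K)` has an equivalent polyhedral norm iff `K` is scattered iff it has a `C¹` norm.

All continuous images of weight at most `ℵ₁` of Valdivia compact spaces are such spaces `K`.
-/

set_option autoImplicit false

namespace Pool.Agent.Results.MP_7b0956_an.RetractionChains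

open Pool.Agent.helper26.CK Pool.Agent.helper41.RC

theorem result :
    (∀ (K Z : Type) [TopologicalSpace K] [CompactSpace K] [T2Space K] [Nonempty K]
        [TopologicalSpace Z] [CompactSpace Z] [T2Space Z] [Nonempty Z], ChainImages K →
      (HasPoly C(K × Z, ℝ) ↔ Scattered K ∧ HasPoly C(Z, ℝ)) ∧
        (HasC1 C(K × Z, ℝ) ↔ Scattered K ∧ HasC1 C(Z, ℝ)) ∧
        (HasPoly C(K, ℝ) ↔ Scattered K) ∧ (HasC1 C(K, ℝ) ↔ Scattered K)) ∧
      ∀ (K L : Type) [TopologicalSpace K] [CompactSpace K] [T2Space K] [TopologicalSpace L]
        [CompactSpace L] (π : L → K), WeightLe K → Valdivia L → Continuous π →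
          Function.Surjective π → ChainImages K :=
  ⟨fun _ _ _ _ _ _ _ _ _ _ hK =>
      ⟨hK.hasPoly_prod_iff, hK.hasC1_prod_iff, hK.hasPoly_iff, hK.hasC1_iff⟩,
    fun _ _ _ _ _ _ _ _ hw hL hπ hs => chainImages_of_valdivia hw hL hπ hs⟩

end Pool.Agent.Results.MP_7b0956_an.RetractionChains
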