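import Pool.Agent.helper41.RC.TalIso

/-!
# MP_7b0956_an: Talagrand operators on C(αΓ × αΔ)

A Talagrand operator on `C(K)` gives both an equivalent polyhedral norm and an equivalent `C¹`
norm of `C(K)`; it is the tool by which both norms are found together.

Let `Γ`, `Δ` be discrete spaces and `K` the product of their one-point compactifications.
`C(K)` is isomorphic to `C(K')` for the one-point compactification `K'` of a discrete space, `C(K')`
has a Talagrand operator, and `C(K)` has both norms; but `C(K)` has a Talagrand operator (or only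
a weak Talagrand family) iff one of `Γ`, `Δ` is countable or both have cardinality at most `ℵ₁`.
In particular (`|Γ| = ℵ₂`, `|Δ| = ℵ₁`) the existence of a Talagrand operator is not invariant under
isomorphisms of the spaces `C(K)`.
-/

set_option autoImplicit false

namespace Pool.Agent.Results.MP_7b0956_an.TalagrandOperators

open Topology Pool.Agent.helper26.CK Pool.Agent.helper41.RC

theorem result (Γ Δ : Type) [TopologicalSpace Γ] [DiscreteTopology Γ] [TopologicalSpace Δ]
    [DiscreteTopology Δ] :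
    Nonempty (C(OnePoint ((Γ × Δ) ⊕ Γ ⊕ Δ), ℝ) ≃L[ℝ] C(OnePoint Γ × OnePoint Δ, ℝ)) ∧
    Talagrand (OnePoint ((Γ × Δ) ⊕ Γ ⊕ Δ)) ∧
    HasPoly C(OnePoint Γ × OnePoint Δ, ℝ) ∧ HasC1 C(OnePoint Γ × OnePoint Δ, ℝ) ∧
    (Talagrand (OnePoint Γ × OnePoint Δ) ↔ (Cardinal.mk Γ ≤ Cardinal.aleph0 ∨
      Cardinal.mk Δ ≤ Cardinal.aleph0 ∨
      (Cardinal.mk Γ ≤ Cardinal.aleph 1 ∧ Cardinal.mk Δ ≤ Cardinal.aleph 1))) ∧
    (WeakTalagrand (OnePoint Γ × OnePoint Δ) ↔ (Cardinal.mk Γ ≤ Cardinal.aleph0 ∨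
      Cardinal.mk Δ ≤ Cardinal.aleph0 ∨
      (Cardinal.mk Γ ≤ Cardinal.aleph 1 ∧ Cardinal.mk Δ ≤ Cardinal.aleph 1))) := by
  have hΓ := scattered_onePoint Γ
  have hΔ := scattered_onePoint Δ
  have hK := scattered_prod hΓ hΔ
  have hpos : SmallPair Γ Δ → Talagrand (OnePoint Γ × OnePoint Δ) := fun h =>
    (chainImages_prod h).talagrand hK
  refine ⟨exists_iso Γ Δ, (chainImages_onePoint _).talagrand (scattered_onePoint _), ?_, ?_,
    ⟨fun h => smallPair_of_weakTalagrand h.weak, hpos⟩,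
    ⟨smallPair_of_weakTalagrand, fun h => (hpos h).weak⟩⟩
  · exact (chainImages_onePoint Γ).hasPoly_prod hΓ ((chainImages_onePoint Δ).hasPoly_iff.2 hΔ)
  · exact (chainImages_onePoint Γ).hasC1_prod hΓ ((chainImages_onePoint Δ).hasC1_iff.2 hΔ)

end Pool.Agent.Results.MP_7b0956_an.TalagrandOperators
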