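import Pool.Agent.helper26.CS.Cls

/-!
# MP_7b0956_an: polyhedral and C¹ norms on C(K), K a continuous image of a Valdivia compact space

`Retr` is the smallest class of compact Hausdorff spaces which contains the metrizable, the linearly
ordered and the Valdivia ones and is closed under limits of continuous transfinite sequences of
retractions.  `Lcl` is the smallest class of compact Hausdorff spaces which contains the scattered
continuous images of members of `Retr` and is closed under continuous images, finite products and
layered unions.

If the compact space `K` is a continuous image of a member of `Retr` (for instance, of a Valdivia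
compact space of any weight), or is in `Lcl` in case it is scattered, and `Z` is any compact space,
then `C(K × Z)` has an equivalent polyhedral norm iff `K` is scattered and `C(Z)` has one, and the
same holds for `C¹` norms; in particular, `C(K)` has an equivalent polyhedral norm iff `K` is
scattered iff `C(K)` has an equivalent `C¹` norm.
-/

set_option autoImplicit false

namespace Pool.Agent.Results.MP_7b0956_an.ValdiviaImages

open Pool.Agent.helper26.CK Pool.Agent.helper26.CR Pool.Agent.helper26.CS

theorem result (K Z : Type) [TopologicalSpace K] [CompactSpace K] [T2Space K] [Nonempty K]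
    [TopologicalSpace Z] [CompactSpace Z] [T2Space Z] [Nonempty Z]
    (hK : ImRetr K ∨ (Scattered K → Lcl K)) :
    (HasPoly C(K × Z, ℝ) ↔ Scattered K ∧ HasPoly C(Z, ℝ)) ∧
      (HasC1 C(K × Z, ℝ) ↔ Scattered K ∧ HasC1 C(Z, ℝ)) ∧
      (HasPoly C(K, ℝ) ↔ Scattered K) ∧ (HasC1 C(K, ℝ) ↔ Scattered K) := by
  have hG : Scattered K → Lcl K := by
    rcases hK with ⟨L, _, φ, hL, hφ, hφ'⟩ | h
    · exact fun hs => Lcl.retr K L φ hφ hφ' hL hs
    · exact h
  refine ⟨⟨fun h => ?_, fun h => (hG h.1).hasPoly_prod h.2⟩,
    ⟨fun h => ?_, fun h => (hG h.1).hasC1_prod h.2⟩,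
    ⟨fun h => ?_, fun h => ((hG h).hasPoly_prod hasPoly_unit).comp (fstIso K Unit)⟩,
    ⟨fun h => ?_, fun h => ((hG h).hasC1_prod hasC1_unit).comp (fstIso K Unit)⟩⟩
  · refine ⟨?_, h.comp (sndIso K Z)⟩
    by_contra hs
    exact not_hasPoly hs (h.comp (fstIso K Z))
  · refine ⟨?_, h.comp (sndIso K Z)⟩
    by_contra hs
    exact not_hasC1 hs (h.comp (fstIso K Z))
  · by_contra hs
    exact not_hasPoly hs h
  · by_contra hs
    exact not_hasC1 hs h

end Pool.Agent.Results.MP_7b0956_an.ValdiviaImages
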